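import Pool.Agent.Work.MP_6ed805_an.Tree

/-!
# Linear embeddings between spaces `C(K n)` with uniform constants
-/

open Topology Filter Set OnePoint
open scoped ZeroAtInfty

namespace Pool.Agent.Work.MP_6ed805_an

section EmbDef
variable (X Y : Type*) [NormedAddCommGroup X] [NormedSpace ℝ X]
  [NormedAddCommGroup Y] [NormedSpace ℝ Y]

/-- a linear contraction `T : X → Y` with `‖x‖ ≤ D ‖T x‖` exists -/
def Emb (D : ℝ) : Prop :=
  ∃ T : X →ₗ[ℝ] Y, (∀ x, ‖T x‖ ≤ ‖x‖) ∧ ∀ x, ‖x‖ ≤ D * ‖T x‖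

end EmbDef

section Basic
variable {X Y Z : Type*} [NormedAddCommGroup X] [NormedSpace ℝ X]
  [NormedAddCommGroup Y] [NormedSpace ℝ Y] [NormedAddCommGroup Z] [NormedSpace ℝ Z]

theorem Emb.trans {D D' : ℝ} (hD : 0 ≤ D) (h1 : Emb X Y D) (h2 : Emb Y Z D') :
    Emb X Z (D * D') := by
  obtain ⟨T, hT, hT'⟩ := h1
  obtain ⟨S, hS, hS'⟩ := h2
  refine ⟨S.comp T, fun x => (hS _).trans (hT x), fun x => ?_⟩
  calc ‖x‖ ≤ D * ‖T x‖ := hT' x
    _ ≤ D * (D' * ‖S (T x)‖) := by gcongr; exact hS' _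
    _ = _ := by simp [mul_assoc]

end Basic

section CZero

/-- null sequences in `X` as a subspace of the bounded sequences -/
def c0Sub (X : Type*) [NormedAddCommGroup X] [NormedSpace ℝ X] :
    Submodule ℝ (BoundedContinuousFunction ℕ X) where
  carrier := {f | Tendsto (fun n => f n) cofinite (𝓝 0)}
  add_mem' := by
    intro f g hf hg
    simpa using Tendsto.add (show Tendsto (fun n => f n) cofinite (𝓝 0) from hf)
      (show Tendsto (fun n => g n) cofinite (𝓝 0) from hg)
  zero_mem' := tendsto_const_nhds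
  smul_mem' := by
    intro c f hf
    simpa using Tendsto.const_smul (show Tendsto (fun n => f n) cofinite (𝓝 0) from hf) c

/-- the space `c₀(X)` -/
def c0 (X : Type*) [NormedAddCommGroup X] [NormedSpace ℝ X] : Type _ := c0Sub X

variable {X Y Z : Type*} [NormedAddCommGroup X] [NormedSpace ℝ X]
  [NormedAddCommGroup Y] [NormedSpace ℝ Y] [NormedAddCommGroup Z] [NormedSpace ℝ Z]

noncomputable instance : NormedAddCommGroup (c0 X) := inferInstanceAs (NormedAddCommGroup (c0Sub X))
noncomputable instance : NormedSpace ℝ (c0 X) := inferInstanceAs (NormedSpace ℝ (c0Sub X))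

/-- the terms of a sequence -/
def c0.seq (f : c0 X) (n : ℕ) : X := f.1 n

theorem c0_ext {f g : c0 X} (h : ∀ n, f.seq n = g.seq n) : f = g :=
  Subtype.ext (BoundedContinuousFunction.ext h)

@[simp] theorem c0_add (f g : c0 X) (n : ℕ) : (f + g).seq n = f.seq n + g.seq n := rfl
@[simp] theorem c0_smul (c : ℝ) (f : c0 X) (n : ℕ) : (c • f).seq n = c • f.seq n := rfl

theorem c0_norm_le {f : c0 X} {C : ℝ} (hC : 0 ≤ C) : ‖f‖ ≤ C ↔ ∀ n, ‖f.seq n‖ ≤ C :=
  BoundedContinuousFunction.norm_le (f := f.1) hC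

theorem c0_norm_coe_le (f : c0 X) (n : ℕ) : ‖f.seq n‖ ≤ ‖f‖ :=
  (c0_norm_le (norm_nonneg _)).1 le_rfl n

omit [NormedSpace ℝ X] in
theorem bounded_of_null {f : ℕ → X} (h : Tendsto f cofinite (𝓝 0)) : ∃ C, ∀ n, ‖f n‖ ≤ C := by
  rw [Nat.cofinite_eq_atTop] at h
  obtain ⟨C, hC⟩ := h.norm.bddAbove_range
  exact ⟨C, fun n => hC ⟨n, rfl⟩⟩

/-- an element of `c₀(X)` from a null sequence -/
noncomputable def c0mk (f : ℕ → X) (h : Tendsto f cofinite (𝓝 0)) : c0 X :=
  ⟨BoundedContinuousFunction.ofNormedAddCommGroupDiscrete f _ (bounded_of_null h).choose_spec, h⟩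

@[simp] theorem c0mk_apply (f : ℕ → X) (h : Tendsto f cofinite (𝓝 0)) (n : ℕ) :
    (c0mk f h).seq n = f n := rfl

theorem c0_tendsto (f : c0 X) : Tendsto (fun n => f.seq n) cofinite (𝓝 0) := f.2

theorem Emb.czero {D : ℝ} (hD : 0 ≤ D) (h : Emb X Y D) : Emb (c0 X) (c0 Y) D := by
  obtain ⟨T, hT, hT'⟩ := h
  have ht : ∀ f : c0 X, Tendsto (fun n => T (f.seq n)) cofinite (𝓝 0) := fun f =>
    squeeze_zero_norm (fun n => hT (f.seq n)) (tendsto_zero_iff_norm_tendsto_zero.1 (c0_tendsto f))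
  let S : c0 X →ₗ[ℝ] c0 Y :=
    { toFun := fun f => c0mk _ (ht f)
      map_add' := fun f g => c0_ext fun n => by simp
      map_smul' := fun c f => c0_ext fun n => by simp }
  have hS : ∀ f n, (S f).seq n = T (f.seq n) := fun f n => rfl
  refine ⟨S, fun f => ?_, fun f => ?_⟩
  · rw [c0_norm_le (norm_nonneg _)]
    intro n
    rw [hS]
    exact (hT _).trans (c0_norm_coe_le f n)
  · rw [c0_norm_le (by positivity)]
    intro n
    refine (hT' (f.seq n)).trans ?_
    gcongr
    rw [← hS]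
    exact c0_norm_coe_le _ n

theorem c0c0_tendsto (f : c0 (c0 X)) :
    Tendsto (fun p : ℕ × ℕ => (f.seq p.1).seq p.2) cofinite (𝓝 0) := by
  rw [Metric.tendsto_nhds]
  intro ε hε
  have h1 := (Metric.tendsto_nhds.1 (c0_tendsto f)) ε hε
  rw [Filter.eventually_cofinite] at h1 ⊢
  have h2 : ∀ k, {j | ¬ dist ((f.seq k).seq j) 0 < ε}.Finite := fun k => by
    have := (Metric.tendsto_nhds.1 (c0_tendsto (f.seq k))) ε hε
    rwa [Filter.eventually_cofinite] at this
  refine ((h1.biUnion (t := fun k => Prod.mk k '' {j | ¬ dist ((f.seq k).seq j) 0 < ε})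
    (fun k _ => (h2 k).image _))).subset ?_
  rintro ⟨k, j⟩ hkj
  simp only [mem_iUnion, mem_image, Prod.mk.injEq, exists_prop]
  refine ⟨k, ?_, j, hkj, rfl, rfl⟩
  intro h
  apply hkj
  rw [dist_zero_right] at h ⊢
  exact (c0_norm_coe_le (f.seq k) j).trans_lt h

theorem emb_c0c0 (X : Type*) [NormedAddCommGroup X] [NormedSpace ℝ X] :
    Emb (c0 (c0 X)) (c0 X) 1 := by
  have ht : ∀ f : c0 (c0 X), Tendsto (fun n => (f.seq (Nat.unpair n).1).seq (Nat.unpair n).2)
      cofinite (𝓝 0) := fun f =>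
    (c0c0_tendsto f).comp (Nat.pairEquiv.symm.injective.tendsto_cofinite)
  let S : c0 (c0 X) →ₗ[ℝ] c0 X :=
    { toFun := fun f => c0mk _ (ht f)
      map_add' := fun f g => c0_ext fun n => by simp
      map_smul' := fun c f => c0_ext fun n => by simp }
  have hS : ∀ f n, (S f).seq n = (f.seq (Nat.unpair n).1).seq (Nat.unpair n).2 := fun f n => rfl
  refine ⟨S, fun f => ?_, fun f => ?_⟩
  · rw [c0_norm_le (norm_nonneg _)]
    intro n
    rw [hS]
    exact (c0_norm_coe_le _ _).trans (c0_norm_coe_le f _)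
  · rw [one_mul, c0_norm_le (by positivity)]
    intro k
    rw [c0_norm_le (by positivity)]
    intro j
    have := c0_norm_coe_le (S f) (Nat.pair k j)
    rw [hS, Nat.unpair_pair] at this
    exact this

theorem emb_prod_c0 (Y : Type*) [NormedAddCommGroup Y] [NormedSpace ℝ Y] :
    Emb (Y × Y) (c0 Y) 1 := by
  have ht : ∀ p : Y × Y, Tendsto (fun n : ℕ => if n = 0 then p.1 else if n = 1 then p.2 else 0)
      cofinite (𝓝 0) := by
    intro p
    rw [Nat.cofinite_eq_atTop]
    refine tendsto_const_nhds.congr' ?_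
    filter_upwards [eventually_gt_atTop 1] with n hn
    have h0 : n ≠ 0 := by omega
    have h1 : n ≠ 1 := by omega
    simp [h0, h1]
  let S : Y × Y →ₗ[ℝ] c0 Y :=
    { toFun := fun f => c0mk _ (ht f)
      map_add' := fun f g => c0_ext fun n => by simp; split_ifs <;> simp
      map_smul' := fun c f => c0_ext fun n => by simp }
  have hS : ∀ f n, (S f).seq n = if n = 0 then f.1 else if n = 1 then f.2 else 0 := fun f n => rfl
  refine ⟨S, fun f => ?_, fun f => ?_⟩
  · rw [c0_norm_le (norm_nonneg _)]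
    intro n
    rw [hS]
    split_ifs
    · exact norm_fst_le f
    · exact norm_snd_le f
    · simp
  · rw [one_mul, Prod.norm_def]
    have h0 := c0_norm_coe_le (S f) 0
    have h1 := c0_norm_coe_le (S f) 1
    rw [hS] at h0 h1
    exact max_le (by simpa using h0) (by simpa using h1)

end CZero


section Pieces

variable {X : Type*} [TopologicalSpace X] [CompactSpace X]

/-- restriction to the `k`-th piece -/
def piece (k : ℕ) : C(OnePoint (ℕ × X), ℝ) →ₗ[ℝ] C(X, ℝ) where
  toFun f := ⟨fun x => f ((k, x) : ℕ × X), f.continuous.comp (continuous_coe.comp (by fun_prop))⟩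
  map_add' f g := rfl
  map_smul' c f := rfl

omit [CompactSpace X] in
@[simp] theorem piece_apply (k : ℕ) (f : C(OnePoint (ℕ × X), ℝ)) (x : X) :
    piece k f x = f ((k, x) : ℕ × X) := rfl

theorem piece_tendsto (f : C(OnePoint (ℕ × X), ℝ)) (hf : f ∞ = 0) :
    Tendsto (fun k => piece k f) cofinite (𝓝 0) := by
  rw [Nat.cofinite_eq_atTop, Metric.tendsto_nhds]
  intro ε hε
  have h := ((cont_iff _).1 f.continuous).2 (Metric.ball (f ∞) (ε / 2)) (Metric.ball_mem_nhds _ (by positivity))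
  filter_upwards [h] with k hk
  rw [dist_zero_right]
  refine lt_of_le_of_lt ((ContinuousMap.norm_le _ (by positivity : 0 ≤ ε / 2)).2 ?_) (half_lt_self hε)
  intro x
  have := hk x
  rw [hf, Metric.mem_ball, dist_zero_right] at this
  exact this.le

theorem emb_pieces (V : Submodule ℝ C(OnePoint (ℕ × X), ℝ)) (W : Submodule ℝ C(X, ℝ))
    (h0 : ∀ f ∈ V, f ∞ = 0) (hW : ∀ f ∈ V, ∀ k, piece k f ∈ W) : Emb V (c0 W) 1 := by
  have ht : ∀ f : V, Tendsto (fun k => (⟨piece k f.1, hW f.1 f.2 k⟩ : W)) cofinite (𝓝 0) := by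
    intro f
    have h1 := tendsto_zero_iff_norm_tendsto_zero.1 (piece_tendsto f.1 (h0 _ f.2))
    exact tendsto_zero_iff_norm_tendsto_zero.2 h1
  let S : V →ₗ[ℝ] c0 W :=
    { toFun := fun f => c0mk _ (ht f)
      map_add' := fun f g => c0_ext fun n => rfl
      map_smul' := fun c f => c0_ext fun n => rfl }
  have hS : ∀ f n, ((S f).seq n).1 = piece n f.1 := fun f n => rfl
  refine ⟨S, fun f => ?_, fun f => ?_⟩
  · refine (c0_norm_le (norm_nonneg _)).2 fun n => ?_
    change ‖((S f).seq n).1‖ ≤ _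
    rw [hS, ContinuousMap.norm_le _ (norm_nonneg _)]
    intro x
    exact f.1.norm_coe_le_norm _
  · rw [one_mul]
    change ‖f.1‖ ≤ _
    rw [ContinuousMap.norm_le _ (norm_nonneg _)]
    intro z
    induction z using OnePoint.rec with
    | infty => rw [h0 _ f.2]; simp
    | coe p =>
      have h1 : ‖((S f).seq p.1).1‖ ≤ ‖S f‖ := c0_norm_coe_le (S f) p.1
      rw [hS] at h1
      exact ((piece p.1 f.1).norm_coe_le_norm p.2).trans h1

theorem emb_join [Nonempty X] : Emb (c0 C(X, ℝ) × ℝ) C(OnePoint (ℕ × X), ℝ) 1 := by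
  have hc : ∀ p : c0 C(X, ℝ) × ℝ, Continuous (fun z : OnePoint (ℕ × X) => z.elim (0 : ℝ)
      (fun q => if q.1 = 0 then p.2 else p.1.seq (q.1 - 1) q.2)) := by
    intro p
    rw [cont_iff]
    refine ⟨fun k => ?_, fun U hU => ?_⟩
    · rcases k with _ | k
      · simpa using continuous_const
      · simpa using (p.1.seq k).continuous
    · rw [elim_infty, Metric.mem_nhds_iff] at hU
      obtain ⟨ε, hε, hU⟩ := hU
      have h1 := (Metric.tendsto_nhds.1 (c0_tendsto p.1)) ε hε
      rw [Nat.cofinite_eq_atTop] at h1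
      obtain ⟨N, hN⟩ := eventually_atTop.1 h1
      filter_upwards [eventually_gt_atTop N] with k hk x
      apply hU
      have h2 := hN (k - 1) (by omega)
      rw [dist_zero_right] at h2
      have h3 : k ≠ 0 := by omega
      simp only [elim_some, h3, if_false, Metric.mem_ball, dist_zero_right]
      exact ((p.1.seq (k-1)).norm_coe_le_norm x).trans_lt h2
  let S : c0 C(X, ℝ) × ℝ →ₗ[ℝ] C(OnePoint (ℕ × X), ℝ) :=
    { toFun := fun p => ⟨_, hc p⟩
      map_add' := fun f g => by
        ext z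
        induction z using OnePoint.rec with
        | infty => simp
        | coe q => simp; split_ifs <;> simp
      map_smul' := fun c f => by
        ext z
        induction z using OnePoint.rec with
        | infty => simp
        | coe q => simp }
  have hS : ∀ p z, S p z = z.elim (0 : ℝ)
      (fun q => if q.1 = 0 then p.2 else p.1.seq (q.1 - 1) q.2) := fun p z => rfl
  refine ⟨S, fun p => ?_, fun p => ?_⟩
  · rw [ContinuousMap.norm_le _ (norm_nonneg _)]
    intro z
    rw [hS]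
    induction z using OnePoint.rec with
    | infty => simp
    | coe q =>
      simp only [elim_some]
      split_ifs
      · exact norm_snd_le p
      · exact ((ContinuousMap.norm_coe_le_norm _ _).trans (c0_norm_coe_le _ _)).trans (norm_fst_le p)
  · rw [one_mul, Prod.norm_def]
    refine max_le ?_ ?_
    · rw [c0_norm_le (norm_nonneg _)]
      intro k
      rw [ContinuousMap.norm_le _ (norm_nonneg _)]
      intro x
      have := ContinuousMap.norm_coe_le_norm (S p) ((k + 1, x) : ℕ × X)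
      rw [hS] at this
      simpa using this
    · have := ContinuousMap.norm_coe_le_norm (S p) ((0, Classical.arbitrary X) : ℕ × X)
      rw [hS] at this
      simpa using this

end Pieces

section Layers

/-- the map `id × F` on the trees -/
def mapSnd {X X' : Type*} (F : X → X') : OnePoint (ℕ × X) → OnePoint (ℕ × X') :=
  OnePoint.map fun p => (p.1, F p.2)

theorem continuous_mapSnd {X X' : Type*} [TopologicalSpace X] [CompactSpace X]
    [TopologicalSpace X'] [CompactSpace X'] {F : X → X'} (hF : Continuous F) :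
    Continuous (mapSnd F) := by
  rw [cont_iff]
  refine ⟨fun k => continuous_coe.comp (by fun_prop), fun U hU => ?_⟩
  change U ∈ 𝓝 ∞ at hU
  rw [mem_nhds_inf] at hU
  filter_upwards [hU.2] with k hk x
  exact hk _

/-- embedding of `K n` in `K (m + n)` as the top `n` levels -/
noncomputable def iota (m : ℕ) : (n : ℕ) → K n → K (m + n)
  | 0 => fun _ => root m
  | n + 1 => mapSnd (X := K n) (X' := K (m + n)) (iota m n)

/-- retraction of `K (m + n)` onto `K n` -/
noncomputable def rho (m : ℕ) : (n : ℕ) → K (m + n) → K n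
  | 0 => fun _ => root 0
  | n + 1 => mapSnd (X := K (m + n)) (X' := K n) (rho m n)

theorem continuous_iota (m n : ℕ) : Continuous (iota m n) := by
  induction n with
  | zero => exact continuous_const
  | succ n ih => exact continuous_mapSnd (X := K n) (X' := K (m + n)) ih

theorem continuous_rho (m n : ℕ) : Continuous (rho m n) := by
  induction n with
  | zero => exact continuous_const
  | succ n ih => exact continuous_mapSnd (X := K (m + n)) (X' := K n) ih

theorem rho_iota (m n : ℕ) (x : K n) : rho m n (iota m n x) = x := by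
  induction n with
  | zero => rfl
  | succ n ih =>
    revert x
    intro (x : OnePoint (ℕ × K n))
    induction x using OnePoint.rec with
    | infty => rfl
    | coe p =>
      change (((p.1, rho m n (iota m n p.2)) : ℕ × K n) : OnePoint (ℕ × K n)) = _
      rw [ih]

theorem iota_root (m n : ℕ) : iota m n (root n) = root (m + n) := by
  cases n with
  | zero => rfl
  | succ n => rfl

/-- functions on `K (m + n)` vanishing on the top `n` levels -/
def G (m n : ℕ) : Submodule ℝ C(K (m + n), ℝ) where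
  carrier := {f | ∀ x, f (iota m n x) = 0}
  add_mem' := by
    intro f g hf hg x
    simp [hf x, hg x]
  zero_mem' := by intro x; simp
  smul_mem' := by
    intro c f hf x
    simp [hf x]

/-- functions on `K n` vanishing at the root -/
def X0 (n : ℕ) : Submodule ℝ C(K n, ℝ) where
  carrier := {f | f (root n) = 0}
  add_mem' := by
    intro f g hf hg
    change f (root n) + g (root n) = 0
    rw [show f (root n) = 0 from hf, show g (root n) = 0 from hg, add_zero]
  zero_mem' := by simp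
  smul_mem' := by
    intro c f hf
    change c * f (root n) = 0
    rw [show f (root n) = 0 from hf, mul_zero]

/-- the model space `c₀(C(K m'))` -/
abbrev Y (m' : ℕ) := c0 C(K m', ℝ)

theorem emb_YY (m' : ℕ) : Emb (Y m' × Y m') (Y m') 1 := by
  have h := (emb_prod_c0 (Y m')).trans zero_le_one (emb_c0c0 _)
  rwa [one_mul] at h

theorem emb_top (X : Type*) [TopologicalSpace X] [CompactSpace X] :
    Emb (⊤ : Submodule ℝ C(X, ℝ)) C(X, ℝ) 1 :=
  ⟨Submodule.subtype _, fun x => le_rfl, fun x => by rw [one_mul]; exact le_rfl⟩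

theorem emb_X0 (m' : ℕ) : Emb (X0 (m' + 1)) (Y m') 1 := by
  have h := (emb_pieces (X := K m') (X0 (m' + 1)) ⊤ (fun f hf => hf) (fun f hf k => trivial)).trans
    zero_le_one ((emb_top (K m')).czero zero_le_one)
  rwa [one_mul] at h

theorem emb_G (m' n : ℕ) : Emb (G (m' + 1) n) (Y m') 1 := by
  induction n with
  | zero =>
    obtain ⟨T, hT, hT'⟩ := emb_X0 m'
    let S : G (m' + 1) 0 →ₗ[ℝ] X0 (m' + 1) :=
      { toFun := fun f => ⟨f.1, f.2 (root 0)⟩
        map_add' := fun f g => rfl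
        map_smul' := fun c f => rfl }
    exact ⟨T.comp S, fun f => hT (S f), fun f => hT' (S f)⟩
  | succ n ih =>
    have h := (emb_pieces (X := K (m' + 1 + n)) (G (m' + 1) (n + 1)) (G (m' + 1) n)
      (fun f hf => hf (root (n + 1))) (fun f hf k x => hf (((k, x) : ℕ × K n) : OnePoint (ℕ × K n)))).trans
      zero_le_one ((ih.czero zero_le_one).trans zero_le_one (emb_c0c0 _))
    rwa [one_mul, one_mul] at h

/-- restriction to the top levels -/
noncomputable def Rmap (m n : ℕ) : X0 (m + n) →ₗ[ℝ] X0 n where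
  toFun := fun f => ⟨f.1.comp ⟨iota m n, continuous_iota m n⟩, by
    change f.1 (iota m n (root n)) = 0
    rw [iota_root]
    exact f.2⟩
  map_add' := fun f g => rfl
  map_smul' := fun c f => rfl

/-- the complementary part -/
noncomputable def Qmap (m n : ℕ) : X0 (m + n) →ₗ[ℝ] G m n where
  toFun := fun f => ⟨f.1 - (Rmap m n f).1.comp ⟨rho m n, continuous_rho m n⟩, by
    intro x
    change f.1 (iota m n x) - f.1 (iota m n (rho m n (iota m n x))) = 0
    rw [rho_iota, sub_self]⟩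
  map_add' := fun f g => by
    apply Subtype.ext
    ext x
    change (f.1 x + g.1 x) - (f.1 (iota m n (rho m n x)) + g.1 (iota m n (rho m n x))) =
      (f.1 x - f.1 (iota m n (rho m n x))) + (g.1 x - g.1 (iota m n (rho m n x)))
    ring
  map_smul' := fun c f => by
    apply Subtype.ext
    ext x
    change (c * f.1 x) - (c * f.1 (iota m n (rho m n x))) =
      c * (f.1 x - f.1 (iota m n (rho m n x)))
    ring

theorem emb_step (m n : ℕ) {Y : Type*} [NormedAddCommGroup Y] [NormedSpace ℝ Y]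
    {D : ℝ} (hD : 0 ≤ D) (h : Emb (X0 n) Y D) (hG : Emb (G m n) Y 1) (hY : Emb (Y × Y) Y 1) :
    Emb (X0 (m + n)) Y (D + 2) := by
  obtain ⟨J, hJ, hJ'⟩ := h
  obtain ⟨Γ, hΓ, hΓ'⟩ := hG
  obtain ⟨P, hP, hP'⟩ := hY
  have hR : ∀ f, ‖Rmap m n f‖ ≤ ‖f‖ := by
    intro f
    change ‖(Rmap m n f).1‖ ≤ ‖f.1‖
    rw [ContinuousMap.norm_le _ (norm_nonneg _)]
    intro x
    exact f.1.norm_coe_le_norm _
  have hRr : ∀ f, ‖(Rmap m n f).1.comp ⟨rho m n, continuous_rho m n⟩‖ ≤ ‖Rmap m n f‖ := by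
    intro f
    change _ ≤ ‖(Rmap m n f).1‖
    rw [ContinuousMap.norm_le _ (norm_nonneg _)]
    intro x
    exact (Rmap m n f).1.norm_coe_le_norm _
  have hQ : ∀ f, ‖Qmap m n f‖ ≤ 2 * ‖f‖ := by
    intro f
    change ‖f.1 - (Rmap m n f).1.comp ⟨rho m n, continuous_rho m n⟩‖ ≤ 2 * ‖f.1‖
    refine (norm_sub_le _ _).trans ?_
    have := (hRr f).trans (hR f)
    change _ ≤ ‖f.1‖ at this
    linarith
  let T : X0 (m + n) →ₗ[ℝ] Y := P.comp ((J.comp (Rmap m n)).prod ((2⁻¹ : ℝ) • (Γ.comp (Qmap m n))))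
  refine ⟨T, fun f => ?_, fun f => ?_⟩
  · refine (hP _).trans ?_
    rw [Prod.norm_def]
    refine max_le ?_ ?_
    · exact (hJ _).trans (hR f)
    · change ‖(2⁻¹ : ℝ) • (Γ (Qmap m n f))‖ ≤ _
      rw [norm_smul, Real.norm_of_nonneg (by norm_num)]
      have := (hΓ (Qmap m n f)).trans (hQ f)
      linarith
  · have h0 := hP' ((J (Rmap m n f)), (2⁻¹ : ℝ) • (Γ (Qmap m n f)))
    change _ ≤ 1 * ‖T f‖ at h0
    rw [one_mul] at h0
    have h1 : ‖J (Rmap m n f)‖ ≤ ‖T f‖ :=
      (norm_fst_le ((J (Rmap m n f)), (2⁻¹ : ℝ) • (Γ (Qmap m n f)))).trans h0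
    have h2 : ‖(2⁻¹ : ℝ) • (Γ (Qmap m n f))‖ ≤ ‖T f‖ :=
      (norm_snd_le ((J (Rmap m n f)), (2⁻¹ : ℝ) • (Γ (Qmap m n f)))).trans h0
    rw [norm_smul, Real.norm_of_nonneg (by norm_num)] at h2
    have h3 := hJ' (Rmap m n f)
    have h4 := hΓ' (Qmap m n f)
    have h5 : ‖f.1‖ ≤ ‖(Rmap m n f).1.comp ⟨rho m n, continuous_rho m n⟩‖ + ‖Qmap m n f‖ := by
      have : f.1 = (Rmap m n f).1.comp ⟨rho m n, continuous_rho m n⟩ + (Qmap m n f).1 := by
        ext x
        change f.1 x = f.1 (iota m n (rho m n x)) + (f.1 x - f.1 (iota m n (rho m n x)))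
        ring
      calc ‖f.1‖ = ‖(Rmap m n f).1.comp ⟨rho m n, continuous_rho m n⟩ + (Qmap m n f).1‖ := by
            rw [← this]
        _ ≤ _ := norm_add_le _ _
    have h6 : D * ‖J (Rmap m n f)‖ ≤ D * ‖T f‖ := by gcongr
    have h7 := hRr f
    change ‖f.1‖ ≤ _
    nlinarith

theorem emb_X0_four (m' : ℕ) :
    Emb (X0 ((m' + 1) + ((m' + 1) + ((m' + 1) + (m' + 1))))) (Y m') 7 := by
  have h1 := emb_X0 m'
  have h2 := emb_step (m' + 1) _ (by norm_num) h1 (emb_G m' _) (emb_YY m')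
  have h3 := emb_step (m' + 1) _ (by norm_num) h2 (emb_G m' _) (emb_YY m')
  have h4 := emb_step (m' + 1) _ (by norm_num) h3 (emb_G m' _) (emb_YY m')
  norm_num at h4
  exact h4

/-- subtract the value at the root -/
noncomputable def Qz (N : ℕ) : C(K N, ℝ) →ₗ[ℝ] X0 N where
  toFun := fun f => ⟨f - ContinuousMap.const _ (f (root N)), by
    change f (root N) - f (root N) = 0
    rw [sub_self]⟩
  map_add' := fun f g => by
    apply Subtype.ext
    ext x
    change (f x + g x) - (f (root N) + g (root N)) = (f x - f (root N)) + (g x - g (root N))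
    ring
  map_smul' := fun c f => by
    apply Subtype.ext
    ext x
    change (c * f x) - (c * f (root N)) = c * (f x - f (root N))
    ring

/-- the value at the root -/
noncomputable def Ez (N : ℕ) : C(K N, ℝ) →ₗ[ℝ] ℝ where
  toFun := fun f => f (root N)
  map_add' := fun f g => rfl
  map_smul' := fun c f => rfl

/-- add back the value at the root -/
theorem emb_full (N : ℕ) {Y Z : Type*} [NormedAddCommGroup Y] [NormedSpace ℝ Y]
    [NormedAddCommGroup Z] [NormedSpace ℝ Z] {D : ℝ} (hD : 0 ≤ D) (h : Emb (X0 N) Y D)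
    (hZ : Emb (Y × ℝ) Z 1) :
    Emb C(K N, ℝ) Z (2 * D + 1) := by
  obtain ⟨J, hJ, hJ'⟩ := h
  obtain ⟨P, hP, hP'⟩ := hZ
  have hE : ∀ f, ‖Ez N f‖ ≤ ‖f‖ := fun f => f.norm_coe_le_norm _
  have hc : ∀ f, ‖(ContinuousMap.const (K N) (f (root N)) : C(K N, ℝ))‖ ≤ ‖Ez N f‖ := by
    intro f
    rw [ContinuousMap.norm_le _ (norm_nonneg _)]
    intro x
    exact le_rfl
  have hQ : ∀ f, ‖Qz N f‖ ≤ 2 * ‖f‖ := by
    intro f
    change ‖f - ContinuousMap.const _ (f (root N))‖ ≤ 2 * ‖f‖
    refine (norm_sub_le _ _).trans ?_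
    have := (hc f).trans (hE f)
    linarith
  let T : C(K N, ℝ) →ₗ[ℝ] Z := P.comp (((2⁻¹ : ℝ) • (J.comp (Qz N))).prod (Ez N))
  refine ⟨T, fun f => ?_, fun f => ?_⟩
  · refine (hP _).trans ?_
    rw [Prod.norm_def]
    refine max_le ?_ ?_
    · change ‖(2⁻¹ : ℝ) • (J (Qz N f))‖ ≤ _
      rw [norm_smul, Real.norm_of_nonneg (by norm_num)]
      have := (hJ (Qz N f)).trans (hQ f)
      linarith
    · exact hE f
  · have h0 := hP' ((2⁻¹ : ℝ) • (J (Qz N f)), Ez N f)
    change _ ≤ 1 * ‖T f‖ at h0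
    rw [one_mul] at h0
    have h1 : ‖Ez N f‖ ≤ ‖T f‖ := (norm_snd_le ((2⁻¹ : ℝ) • (J (Qz N f)), Ez N f)).trans h0
    have h2 : ‖(2⁻¹ : ℝ) • (J (Qz N f))‖ ≤ ‖T f‖ :=
      (norm_fst_le ((2⁻¹ : ℝ) • (J (Qz N f)), Ez N f)).trans h0
    rw [norm_smul, Real.norm_of_nonneg (by norm_num)] at h2
    have h3 := hJ' (Qz N f)
    have h5 : ‖f‖ ≤ ‖(ContinuousMap.const (K N) (f (root N)) : C(K N, ℝ))‖ + ‖Qz N f‖ := by
      have : f = (ContinuousMap.const (K N) (f (root N)) : C(K N, ℝ)) + (Qz N f).1 := by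
        ext x
        change f x = f (root N) + (f x - f (root N))
        ring
      calc ‖f‖ = ‖(ContinuousMap.const (K N) (f (root N)) : C(K N, ℝ)) + (Qz N f).1‖ := by rw [← this]
        _ ≤ _ := norm_add_le _ _
    have h6 : D * ‖J (Qz N f)‖ ≤ D * (2 * ‖T f‖) := by gcongr; linarith
    have h7 := hc f
    nlinarith

theorem Surj.emb {X X' : Type*} [TopologicalSpace X] [CompactSpace X] [TopologicalSpace X']
    [CompactSpace X'] (h : Surj X X') : Emb C(X', ℝ) C(X, ℝ) 1 := by
  obtain ⟨F, hF, hF'⟩ := h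
  refine ⟨{ toFun := fun f => f.comp ⟨F, hF⟩
            map_add' := fun f g => rfl
            map_smul' := fun c f => rfl }, fun f => ?_, fun f => ?_⟩
  · rw [ContinuousMap.norm_le _ (norm_nonneg _)]
    exact fun x => f.norm_coe_le_norm _
  · rw [one_mul, ContinuousMap.norm_le _ (norm_nonneg _)]
    intro y
    obtain ⟨x, rfl⟩ := hF' y
    exact ContinuousMap.norm_coe_le_norm (f.comp ⟨F, hF⟩) x

/-- `C(K α)` embeds in `C(K m)` with distortion `15` if `1 ≤ m` and `α ≤ 4 m`. -/
theorem emb_main {α m : ℕ} (hm : 1 ≤ m) (h : α ≤ 4 * m) : Emb C(K α, ℝ) C(K m, ℝ) 15 := by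
  obtain ⟨m', rfl⟩ : ∃ m', m = m' + 1 := ⟨m - 1, by omega⟩
  have h1 := emb_full _ (by norm_num) (emb_X0_four m') (emb_join (X := K m'))
  have h2 : Surj (K ((m' + 1) + ((m' + 1) + ((m' + 1) + (m' + 1))))) (K α) := surj_K (by omega)
  have h3 := h2.emb.trans zero_le_one h1
  norm_num at h3
  exact h3

end Layers

end Pool.Agent.Work.MP_6ed805_an
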