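import Pool.Agent.Work.MP_6ed805_an.Tree

/-!
# The tree space `K n` is homeomorphic to the ordinal interval `[1, ω^n]`
-/

open Topology Filter Set OnePoint Order
open scoped Ordinal

namespace Pool.Agent.Work.MP_6ed805_an

/-- the map from the tree space `K n` to the ordinals, with image `[1, ω^n]` -/
noncomputable def q : (n : ℕ) → K n → Ordinal.{0}
  | 0 => fun _ => 1
  | n + 1 => fun z : OnePoint (ℕ × K n) =>
      z.elim (ω ^ (n + 1)) (fun p => ω ^ n * (p.1 : Ordinal) + q n p.2)

theorem q_inf (n : ℕ) : q (n + 1) (∞ : OnePoint (ℕ × K n)) = ω ^ (n + 1) := rfl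

theorem q_coe (n k : ℕ) (x : K n) : q (n + 1) (((k, x) : ℕ × K n) : OnePoint (ℕ × K n)) =
    ω ^ n * (k : Ordinal) + q n x := rfl

theorem one_le_q (n : ℕ) (x : K n) : 1 ≤ q n x := by
  induction n with
  | zero => exact le_rfl
  | succ n ih =>
    revert x
    intro (x : OnePoint (ℕ × K n))
    induction x using OnePoint.rec with
    | infty =>
      rw [q_inf]
      exact one_le_iff_pos.2 (pow_pos Ordinal.omega0_pos _)
    | coe p =>
      rw [q_coe]
      exact (ih p.2).trans le_add_self

theorem q_le (n : ℕ) (x : K n) : q n x ≤ ω ^ n := by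
  induction n with
  | zero => simp [q]
  | succ n ih =>
    revert x
    intro (x : OnePoint (ℕ × K n))
    induction x using OnePoint.rec with
    | infty => exact le_rfl
    | coe p =>
      rw [q_coe]
      calc ω ^ n * (p.1 : Ordinal) + q n p.2 ≤ ω ^ n * (p.1 : Ordinal) + ω ^ n := by
            gcongr; exact ih p.2
        _ = ω ^ n * ((p.1 : Ordinal) + 1) := by rw [mul_add, mul_one]
        _ ≤ ω ^ n * ω := by
            gcongr
            exact_mod_cast (Ordinal.natCast_lt_omega0 (p.1 + 1)).le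
        _ = ω ^ (n + 1) := by rw [pow_succ]

theorem q_coe_lt (n k : ℕ) (x : K n) :
    q (n + 1) (((k, x) : ℕ × K n) : OnePoint (ℕ × K n)) < ω ^ (n + 1) := by
  rw [q_coe]
  calc ω ^ n * (k : Ordinal) + q n x ≤ ω ^ n * (k : Ordinal) + ω ^ n := by
        gcongr; exact q_le n x
    _ = ω ^ n * ((k : Ordinal) + 1) := by rw [mul_add, mul_one]
    _ < ω ^ n * ω := by
        have : ((k : Ordinal) + 1) < ω := by exact_mod_cast (Ordinal.natCast_lt_omega0 (k + 1))
        exact mul_lt_mul_of_pos_left this (pow_pos Ordinal.omega0_pos _)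
    _ = ω ^ (n + 1) := by rw [pow_succ]

theorem continuous_q (n : ℕ) : Continuous (q n) := by
  induction n with
  | zero => exact continuous_const
  | succ n ih =>
    refine (cont_iff (X := K n) (q (n + 1))).2 ⟨fun k => ?_, fun U hU => ?_⟩
    · exact (Ordinal.isNormal_add_right (ω ^ n * (k : Ordinal))).continuous.comp ih
    · rw [q_inf] at hU
      obtain ⟨a, ha, haU⟩ := exists_Ioc_subset_of_mem_nhds hU ⟨0, pow_pos Ordinal.omega0_pos _⟩
      rw [pow_succ, Ordinal.lt_mul_iff_of_isSuccLimit Ordinal.isSuccLimit_omega0] at ha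
      obtain ⟨c, hc, hac⟩ := ha
      obtain ⟨N, rfl⟩ := Ordinal.lt_omega0.1 hc
      filter_upwards [eventually_ge_atTop N] with k hk x
      apply haU
      refine ⟨?_, q_le (n + 1) _⟩
      rw [q_coe]
      calc a < ω ^ n * (N : Ordinal) := hac
        _ ≤ ω ^ n * (k : Ordinal) := by gcongr
        _ ≤ _ := le_self_add

theorem q_surj (n : ℕ) (o : Ordinal.{0}) (h1 : 1 ≤ o) (h2 : o ≤ ω ^ n) : ∃ x, q n x = o := by
  induction n generalizing o with
  | zero => exact ⟨root 0, le_antisymm h1 (by rw [pow_zero] at h2; exact h2)⟩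
  | succ n ih =>
    rcases h2.eq_or_lt with h2 | h2
    · exact ⟨(∞ : OnePoint (ℕ × K n)), h2.symm⟩
    · have hpos : (ω ^ n : Ordinal.{0}) ≠ 0 := (pow_pos Ordinal.omega0_pos _).ne'
      rw [pow_succ, Ordinal.lt_mul_iff_div_lt hpos] at h2
      obtain ⟨k, hk⟩ := Ordinal.lt_omega0.1 h2
      have hdm := Ordinal.div_add_mod o (ω ^ n)
      rw [hk] at hdm
      have hr := Ordinal.mod_lt o hpos
      rcases eq_or_ne (o % ω ^ n) 0 with hz | hz
      · rw [hz, add_zero] at hdm
        have hk0 : k ≠ 0 := by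
          rintro rfl
          simp only [Nat.cast_zero, mul_zero] at hdm
          rw [← hdm] at h1
          exact absurd h1 (by simp)
        obtain ⟨k, rfl⟩ : ∃ k', k = k' + 1 := ⟨k - 1, by omega⟩
        obtain ⟨x, hx⟩ := ih (ω ^ n) (one_le_iff_pos.2 (pow_pos Ordinal.omega0_pos _)) le_rfl
        refine ⟨(((k, x) : ℕ × K n) : OnePoint (ℕ × K n)), ?_⟩
        rw [q_coe, hx, ← hdm]
        push_cast
        rw [mul_add, mul_one]
      · obtain ⟨x, hx⟩ := ih (o % ω ^ n) (Order.one_le_iff_ne_zero.2 hz) hr.le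
        refine ⟨(((k, x) : ℕ × K n) : OnePoint (ℕ × K n)), ?_⟩
        rw [q_coe, hx, hdm]

theorem q_inj_aux (n k k' : ℕ) (x x' : K n) (h : k < k') :
    ω ^ n * (k : Ordinal) + q n x < ω ^ n * (k' : Ordinal) + q n x' := by
  calc ω ^ n * (k : Ordinal) + q n x ≤ ω ^ n * (k : Ordinal) + ω ^ n := by
        gcongr; exact q_le n x
    _ = ω ^ n * ((k : Ordinal) + 1) := by rw [mul_add, mul_one]
    _ ≤ ω ^ n * (k' : Ordinal) := by
        gcongr
        exact_mod_cast h
    _ < _ := lt_add_of_pos_right _ (zero_lt_one.trans_le (one_le_q n x'))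

theorem q_inj (n : ℕ) : Function.Injective (q n) := by
  induction n with
  | zero => intro x y _; rfl
  | succ n ih =>
    intro (x : OnePoint (ℕ × K n)) (y : OnePoint (ℕ × K n)) hxy
    induction x using OnePoint.rec with
    | infty =>
      induction y using OnePoint.rec with
      | infty => rfl
      | coe p => exact absurd hxy (q_coe_lt n p.1 p.2).ne'
    | coe p =>
      induction y using OnePoint.rec with
      | infty => exact absurd hxy (q_coe_lt n p.1 p.2).ne
      | coe p' =>
        obtain ⟨k, x⟩ := p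
        obtain ⟨k', x'⟩ := p'
        rw [q_coe, q_coe] at hxy
        rcases lt_trichotomy k k' with h | h | h
        · exact absurd hxy (q_inj_aux n k k' x x' h).ne
        · subst h
          rw [add_right_inj] at hxy
          rw [ih hxy]
        · exact absurd hxy (q_inj_aux n k' k x' x h).ne'

/-- `K n` is homeomorphic to `[1, ω^n]` -/
noncomputable def homeoK (n : ℕ) : K n ≃ₜ Set.Icc (1 : Ordinal.{0}) (ω ^ n) :=
  Continuous.homeoOfEquivCompactToT2
    (f := Equiv.ofBijective (fun x => (⟨q n x, one_le_q n x, q_le n x⟩ :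
      Set.Icc (1 : Ordinal.{0}) (ω ^ n))) ⟨fun x y h => q_inj n (congrArg Subtype.val h),
        fun o => by
          obtain ⟨x, hx⟩ := q_surj n o.1 o.2.1 o.2.2
          exact ⟨x, Subtype.ext hx⟩⟩)
    ((continuous_q n).subtype_mk _)

end Pool.Agent.Work.MP_6ed805_an
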