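import Pool.Agent.Work.MP_6ed805_an.Emb
import Pool.Agent.Work.MP_6ed805_an.Ord

/-!
# Stable phase retrieval embeddings with a uniform constant
-/

open Topology Filter Set OnePoint

namespace Pool.Agent.Work.MP_6ed805_an

/-- `C(X)` has a `C`-SPR isometric embedding into itself -/
def HasSPR (X : Type*) [TopologicalSpace X] [CompactSpace X] (C : ℝ) : Prop :=
  ∃ T : C(X, ℝ) →ₗᵢ[ℝ] C(X, ℝ), ∀ f g : C(X, ℝ),
    min ‖T f - T g‖ ‖T f + T g‖ ≤ C * ‖|T f| - |T g|‖

theorem min_abs_le (x y : ℝ) : min |x - y| |x + y| ≤ |(|x| - |y|)| := by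
  rcases le_total 0 x with hx | hx <;> rcases le_total 0 y with hy | hy <;>
    simp only [abs_of_nonneg, abs_of_nonpos, hx, hy]
  · exact min_le_left _ _
  · refine (min_le_right _ _).trans (le_of_eq ?_); congr 1; ring
  · refine (min_le_right _ _).trans (le_of_eq ?_); rw [← abs_neg]; congr 1; ring
  · refine (min_le_left _ _).trans (le_of_eq ?_); rw [← abs_neg]; congr 1; ring

/-- the main construction -/
theorem hasSPR_of_emb {A B : Type*} [TopologicalSpace A] [CompactSpace A] [TopologicalSpace B]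
    [CompactSpace B] {D : ℝ} (hD : 0 ≤ D) (hJ : Emb C(A, ℝ) C(B, ℝ) D)
    (hS : Surj A (A ⊕ (B × B))) : HasSPR A (3 * D) := by
  obtain ⟨J, hJ1, hJ2⟩ := hJ
  obtain ⟨F, hF, hF'⟩ := hS
  let W : C(A, ℝ) →ₗ[ℝ] C(A ⊕ (B × B), ℝ) :=
    { toFun := fun f => ⟨Sum.elim (fun x => f x) (fun p => (J f p.1 + J f p.2) / 2), by
        refine continuous_sum_dom.2 ⟨f.continuous, ?_⟩
        simp only [Function.comp_def, Sum.elim_inr]
        fun_prop⟩
      map_add' := fun f g => by
        ext z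
        rcases z with z | z
        · simp
        · simp
          ring
      map_smul' := fun c f => by
        ext z
        rcases z with z | z
        · simp
        · simp
          ring }
  have hW1 : ∀ f x, W f (Sum.inl x) = f x := fun f x => rfl
  have hW2 : ∀ f s t, W f (Sum.inr (s, t)) = (J f s + J f t) / 2 := fun f s t => rfl
  let T₀ : C(A, ℝ) →ₗ[ℝ] C(A, ℝ) :=
    { toFun := fun f => (W f).comp ⟨F, hF⟩
      map_add' := fun f g => by rw [map_add]; rfl
      map_smul' := fun c f => by rw [_root_.map_smul]; rfl }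
  have hT₀ : ∀ f x, T₀ f x = W f (F x) := fun f x => rfl
  have hn : ∀ f, ‖T₀ f‖ = ‖f‖ := by
    intro f
    apply le_antisymm
    · rw [ContinuousMap.norm_le _ (norm_nonneg _)]
      intro x
      rw [hT₀]
      rcases F x with z | ⟨s, t⟩
      · rw [hW1]
        exact f.norm_coe_le_norm z
      · rw [hW2, Real.norm_eq_abs]
        have h1 : |J f s| ≤ ‖f‖ := ((J f).norm_coe_le_norm s).trans (hJ1 f)
        have h2 : |J f t| ≤ ‖f‖ := ((J f).norm_coe_le_norm t).trans (hJ1 f)
        rw [abs_le] at h1 h2 ⊢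
        constructor <;> linarith
    · rw [ContinuousMap.norm_le _ (norm_nonneg _)]
      intro z
      obtain ⟨x, hx⟩ := hF' (Sum.inl z)
      have := (T₀ f).norm_coe_le_norm x
      rwa [hT₀, hx, hW1] at this
  refine ⟨⟨T₀, hn⟩, fun f g => ?_⟩
  change min ‖T₀ f - T₀ g‖ ‖T₀ f + T₀ g‖ ≤ 3 * D * ‖|T₀ f| - |T₀ g|‖
  rw [← map_sub, ← map_add, hn, hn]
  set δ := ‖|T₀ f| - |T₀ g|‖ with hδ
  have hδ0 : 0 ≤ δ := norm_nonneg _
  have key : ∀ s t, min |(J (f - g) s + J (f - g) t) / 2| |(J (f + g) s + J (f + g) t) / 2| ≤ δ := by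
    intro s t
    obtain ⟨x, hx⟩ := hF' (Sum.inr (s, t))
    have h1 := (|T₀ f| - |T₀ g|).norm_coe_le_norm x
    have h2 : (|T₀ f| - |T₀ g|) x = |T₀ f x| - |T₀ g x| := rfl
    rw [h2, Real.norm_eq_abs] at h1
    have h3 := (min_abs_le (T₀ f x) (T₀ g x)).trans h1
    have e1 : T₀ f x - T₀ g x = (J (f - g) s + J (f - g) t) / 2 := by
      rw [← hW2, ← hx, ← hT₀, map_sub]; rfl
    have e2 : T₀ f x + T₀ g x = (J (f + g) s + J (f + g) t) / 2 := by
      rw [← hW2, ← hx, ← hT₀, map_add]; rfl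
    rwa [e1, e2] at h3
  have hmain : min ‖J (f - g)‖ ‖J (f + g)‖ ≤ 3 * δ := by
    by_contra hcon
    rw [not_le, lt_min_iff] at hcon
    obtain ⟨ha, hb⟩ := hcon
    have h3 : 0 ≤ 3 * δ := by positivity
    have hs : ∃ s, 3 * δ < |J (f - g) s| := by
      by_contra h
      push Not at h
      exact absurd ((ContinuousMap.norm_le _ h3).2 h) (not_le.2 ha)
    have ht : ∃ t, 3 * δ < |J (f + g) t| := by
      by_contra h
      push Not at h
      exact absurd ((ContinuousMap.norm_le _ h3).2 h) (not_le.2 hb)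
    obtain ⟨s, hs⟩ := hs
    obtain ⟨t, ht⟩ := ht
    have k1 := key s s
    have k2 := key t t
    have k3 := key s t
    rw [add_self_div_two, add_self_div_two, min_le_iff] at k1 k2
    rw [min_le_iff] at k3
    have k1' : |J (f + g) s| ≤ δ := k1.resolve_left (by linarith)
    have k2' : |J (f - g) t| ≤ δ := k2.resolve_right (by linarith)
    rcases k3 with k3 | k3
    · rw [abs_div, abs_two] at k3
      have := abs_sub_abs_le_abs_sub (J (f - g) s) (-(J (f - g) t))
      rw [abs_neg, sub_neg_eq_add] at this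
      linarith
    · rw [abs_div, abs_two] at k3
      have := abs_sub_abs_le_abs_sub (J (f + g) t) (-(J (f + g) s))
      rw [abs_neg, sub_neg_eq_add, add_comm (J (f + g) t)] at this
      linarith
  have h1 := hJ2 (f - g)
  have h2 := hJ2 (f + g)
  rcases min_le_iff.1 hmain with h | h
  · refine (min_le_left _ _).trans (h1.trans ?_)
    calc D * ‖J (f - g)‖ ≤ D * (3 * δ) := by gcongr
      _ = 3 * D * δ := by ring
  · refine (min_le_right _ _).trans (h2.trans ?_)
    calc D * ‖J (f + g)‖ ≤ D * (3 * δ) := by gcongr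
      _ = 3 * D * δ := by ring

theorem HasSPR.transfer {A B : Type*} [TopologicalSpace A] [CompactSpace A] [TopologicalSpace B]
    [CompactSpace B] {C : ℝ} (h : HasSPR A C) (e : A ≃ₜ B) : HasSPR B C := by
  obtain ⟨T, hT⟩ := h
  have hc : ∀ f : C(B, ℝ), ‖f.comp ⟨e, e.continuous⟩‖ = ‖f‖ := by
    intro f
    apply le_antisymm
    · rw [ContinuousMap.norm_le _ (norm_nonneg _)]
      exact fun x => f.norm_coe_le_norm _
    · rw [ContinuousMap.norm_le _ (norm_nonneg _)]
      intro y
      have := (f.comp ⟨e, e.continuous⟩).norm_coe_le_norm (e.symm y)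
      simpa using this
  have hc' : ∀ f : C(A, ℝ), ‖f.comp ⟨e.symm, e.symm.continuous⟩‖ = ‖f‖ := by
    intro f
    apply le_antisymm
    · rw [ContinuousMap.norm_le _ (norm_nonneg _)]
      exact fun x => f.norm_coe_le_norm _
    · rw [ContinuousMap.norm_le _ (norm_nonneg _)]
      intro y
      have := (f.comp ⟨e.symm, e.symm.continuous⟩).norm_coe_le_norm (e y)
      simpa using this
  let U : C(B, ℝ) →ₗ[ℝ] C(B, ℝ) :=
    { toFun := fun f => (T (f.comp ⟨e, e.continuous⟩)).comp ⟨e.symm, e.symm.continuous⟩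
      map_add' := fun f g => by
        rw [ContinuousMap.add_comp, map_add]; rfl
      map_smul' := fun c f => by
        rw [ContinuousMap.smul_comp, _root_.map_smul]; rfl }
  refine ⟨⟨U, fun f => ?_⟩, fun f g => ?_⟩
  · change ‖(T (f.comp ⟨e, e.continuous⟩)).comp ⟨e.symm, e.symm.continuous⟩‖ = ‖f‖
    rw [hc', T.norm_map, hc]
  · have h1 := hT (f.comp ⟨e, e.continuous⟩) (g.comp ⟨e, e.continuous⟩)
    rw [← hc', ← hc' (_ + _), ← hc' (|_| - |_|)] at h1
    exact h1

/-- `C(K α)` has a `45`-SPR isometric embedding into itself for all `α ≥ 3`. -/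
theorem hasSPR_K {α : ℕ} (h : 3 ≤ α) : HasSPR (K α) 45 := by
  have h1 := hasSPR_of_emb (by norm_num) (emb_main (α := α) (m := (α + 3) / 4) (by omega) (by omega))
    (surj_final (by omega))
  norm_num at h1
  exact h1

open scoped Ordinal in
theorem hasSPR_ordinal {α : ℕ} (h : 3 ≤ α) : HasSPR (Set.Icc (1 : Ordinal.{0}) (ω ^ α)) 45 :=
  (hasSPR_K h).transfer (homeoK α)

end Pool.Agent.Work.MP_6ed805_an
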