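import Mathlib

/-!
# Tree spaces `K n` (homeomorphic to `[1, ω^n]`) and continuous surjections between them
-/

open Topology Filter Set OnePoint

namespace Pool.Agent.Work.MP_6ed805_an

section OP

variable {X : Type*} [TopologicalSpace X] [CompactSpace X]

theorem tendsto_fst : Tendsto (Prod.fst : ℕ × X → ℕ) (coclosedCompact (ℕ × X)) atTop := by
  rw [tendsto_atTop]
  intro n
  have h1 : IsClosed {p : ℕ × X | p.1 < n} :=
    (isClosed_discrete {k : ℕ | k < n}).preimage continuous_fst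
  have h2 : IsCompact {p : ℕ × X | p.1 < n} := by
    have : {p : ℕ × X | p.1 < n} = (Set.Iio n) ×ˢ (univ : Set X) := by
      ext p; simp
    rw [this]
    exact (Set.finite_Iio n).isCompact.prod isCompact_univ
  filter_upwards [h2.compl_mem_coclosedCompact_of_isClosed h1] with p hp
  simpa using hp

theorem eventually_cc {P : ℕ × X → Prop} (h : ∀ᶠ k in atTop, ∀ x, P (k, x)) :
    ∀ᶠ p in coclosedCompact (ℕ × X), P p := by
  filter_upwards [tendsto_fst (X := X) h] with p hp
  exact hp p.2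

omit [CompactSpace X] in
theorem eventually_of_cc {P : ℕ × X → Prop} (h : ∀ᶠ p in coclosedCompact (ℕ × X), P p) :
    ∀ᶠ k in atTop, ∀ x, P (k, x) := by
  rw [Filter.Eventually, mem_coclosedCompact_iff] at h
  have h1 : IsCompact (Prod.fst '' (closure {x | P x}ᶜ)) := h.image continuous_fst
  obtain ⟨N, hN⟩ := (h1.finite_of_discrete).bddAbove
  filter_upwards [eventually_gt_atTop N] with k hk x
  by_contra hx
  have hx' : (k, x) ∈ closure {x | P x}ᶜ := subset_closure hx
  exact absurd (hN ⟨_, hx', rfl⟩) (not_le.mpr hk)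

theorem mem_nhds_inf {U : Set (OnePoint (ℕ × X))} :
    U ∈ 𝓝 (∞ : OnePoint (ℕ × X)) ↔
      (∞ : OnePoint (ℕ × X)) ∈ U ∧ ∀ᶠ k in atTop, ∀ x : X,
        (((k, x) : ℕ × X) : OnePoint (ℕ × X)) ∈ U := by
  rw [nhds_infty_eq]
  constructor
  · intro h
    rw [mem_sup] at h
    exact ⟨by simpa using h.2, eventually_of_cc h.1⟩
  · rintro ⟨h1, h2⟩
    rw [mem_sup]
    exact ⟨eventually_cc h2, by simpa using h1⟩

theorem cont_iff {Y : Type*} [TopologicalSpace Y] (F : OnePoint (ℕ × X) → Y) :
    Continuous F ↔ (∀ k : ℕ, Continuous fun x : X => F ((k, x) : ℕ × X)) ∧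
      ∀ U ∈ 𝓝 (F ∞), ∀ᶠ k in atTop, ∀ x : X, F ((k, x) : ℕ × X) ∈ U := by
  rw [continuous_iff]
  constructor
  · rintro ⟨h1, h2⟩
    refine ⟨fun k => h2.comp (by fun_prop), fun U hU => ?_⟩
    exact eventually_of_cc (h1 hU)
  · rintro ⟨h1, h2⟩
    refine ⟨fun U hU => eventually_cc (h2 U hU), ?_⟩
    have : Continuous (fun p : ℕ × X => F ((p.1, p.2) : ℕ × X)) := by
      rw [continuous_prod_of_discrete_left]
      exact h1
    exact this

/-- the shift by `n` on the pieces -/
def shift (n : ℕ) : OnePoint (ℕ × X) → OnePoint (ℕ × X) :=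
  OnePoint.map fun p => (p.1 + n, p.2)

omit [TopologicalSpace X] [CompactSpace X] in
@[simp] theorem shift_inf (n : ℕ) : shift n (∞ : OnePoint (ℕ × X)) = ∞ := rfl
omit [TopologicalSpace X] [CompactSpace X] in
@[simp] theorem shift_coe (n k : ℕ) (x : X) :
    shift n (((k, x) : ℕ × X) : OnePoint (ℕ × X)) = ((k + n, x) : ℕ × X) := rfl

theorem continuous_shift (n : ℕ) : Continuous (shift n : OnePoint (ℕ × X) → OnePoint (ℕ × X)) := by
  rw [cont_iff]
  refine ⟨fun k => continuous_coe.comp (by fun_prop), fun U hU => ?_⟩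
  rw [shift_inf, mem_nhds_inf] at hU
  obtain ⟨N, hN⟩ := eventually_atTop.1 hU.2
  filter_upwards [eventually_ge_atTop N] with k hk x
  exact hN _ (by omega) x

/-- shifted spaces tend to `∞` uniformly -/
theorem shift_mem {U : Set (OnePoint (ℕ × X))} (hU : U ∈ 𝓝 (∞ : OnePoint (ℕ × X))) :
    ∀ᶠ n in atTop, ∀ y : OnePoint (ℕ × X), shift n y ∈ U := by
  rw [mem_nhds_inf] at hU
  obtain ⟨N, hN⟩ := eventually_atTop.1 hU.2
  filter_upwards [eventually_ge_atTop N] with n hn y
  induction y using OnePoint.rec with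
  | infty => exact hU.1
  | coe p => exact hN _ (by omega) p.2

end OP

/-- bundled spaces used in the recursive definition of `K` -/
structure Sp where
  /-- the points -/
  carrier : Type
  /-- the topology -/
  top : TopologicalSpace carrier
  /-- compactness -/
  comp : CompactSpace carrier
  /-- Hausdorff -/
  t2 : T2Space carrier
  /-- the root -/
  root : carrier

/-- recursive definition of the tree spaces -/
noncomputable def Ksp : ℕ → Sp
  | 0 => ⟨Unit, inferInstance, inferInstance, inferInstance, ()⟩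
  | n + 1 =>
    letI := (Ksp n).top
    letI := (Ksp n).comp
    letI := (Ksp n).t2
    ⟨OnePoint (ℕ × (Ksp n).carrier), inferInstance, inferInstance, inferInstance, ∞⟩

/-- the tree space `K n` -/
def K (n : ℕ) : Type := (Ksp n).carrier

noncomputable instance (n : ℕ) : TopologicalSpace (K n) := (Ksp n).top
instance (n : ℕ) : CompactSpace (K n) := (Ksp n).comp
instance (n : ℕ) : T2Space (K n) := (Ksp n).t2

/-- the root of `K n` -/
noncomputable def root (n : ℕ) : K n := (Ksp n).root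

noncomputable instance (n : ℕ) : Inhabited (K n) := ⟨root n⟩

example (n : ℕ) : K (n+1) = OnePoint (ℕ × K n) := rfl
example (n : ℕ) : (instTopologicalSpaceK (n+1)) = (inferInstance : TopologicalSpace (OnePoint (ℕ × K n))) := rfl
example (n : ℕ) : root (n+1) = (∞ : OnePoint (ℕ × K n)) := rfl

/-- continuous surjection exists -/
def Surj (X Y : Type*) [TopologicalSpace X] [TopologicalSpace Y] : Prop :=
  ∃ F : X → Y, Continuous F ∧ Function.Surjective F

theorem Surj.refl (X : Type*) [TopologicalSpace X] : Surj X X := ⟨id, continuous_id, fun x => ⟨x, rfl⟩⟩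

theorem Surj.trans {X Y Z : Type*} [TopologicalSpace X] [TopologicalSpace Y] [TopologicalSpace Z]
    (h1 : Surj X Y) (h2 : Surj Y Z) : Surj X Z := by
  obtain ⟨F, hF, hF'⟩ := h1
  obtain ⟨G, hG, hG'⟩ := h2
  exact ⟨G ∘ F, hG.comp hF, hG'.comp hF'⟩

theorem surj_step {X Y : Type*} [TopologicalSpace X] [CompactSpace X] [TopologicalSpace Y]
    (h : Surj X Y) (y0 : Y) : Surj (OnePoint (ℕ × X)) Y := by
  obtain ⟨F, hF, hF'⟩ := h
  refine ⟨fun z => z.elim y0 (fun p => if p.1 = 0 then F p.2 else y0), ?_, ?_⟩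
  · rw [cont_iff]
    refine ⟨fun k => ?_, fun U hU => ?_⟩
    · rcases k with _ | k
      · simpa using hF
      · simpa using continuous_const
    · filter_upwards [eventually_gt_atTop 0] with k hk x
      have : k ≠ 0 := by omega
      simpa [this] using mem_of_mem_nhds hU
  · intro y
    obtain ⟨x, rfl⟩ := hF' y
    exact ⟨((0, x) : ℕ × X), by simp⟩

theorem surj_K {m n : ℕ} (h : m ≤ n) : Surj (K n) (K m) := by
  induction n, h using Nat.le_induction with
  | base => exact Surj.refl _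
  | succ n hn ih => exact surj_step (X := K n) ih (root m)

theorem surj_sum_step {X Y : Type*} [TopologicalSpace X] [CompactSpace X] [TopologicalSpace Y]
    (h : Surj X Y) : Surj (OnePoint (ℕ × X)) (OnePoint (ℕ × X) ⊕ Y) := by
  obtain ⟨F, hF, hF'⟩ := h
  refine ⟨fun z => z.elim (Sum.inl ∞) (fun p => if p.1 = 0 then Sum.inr (F p.2) else
    Sum.inl ((p.1 - 1, p.2) : ℕ × X)), ?_, ?_⟩
  · rw [cont_iff]
    refine ⟨fun k => ?_, fun U hU => ?_⟩
    · rcases k with _ | k
      · simpa [Function.comp_def] using continuous_inr.comp hF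
      · simp only [elim_some, Nat.add_eq_zero_iff, one_ne_zero, and_false, if_false, Nat.add_sub_cancel]
        exact continuous_inl.comp (continuous_coe.comp (by fun_prop))
    · have h1 : (Sum.inl : OnePoint (ℕ × X) → OnePoint (ℕ × X) ⊕ Y) ⁻¹' U ∈ 𝓝 (∞ : OnePoint (ℕ × X)) :=
        continuous_inl.continuousAt hU
      rw [mem_nhds_inf] at h1
      obtain ⟨N, hN⟩ := eventually_atTop.1 h1.2
      filter_upwards [eventually_gt_atTop N] with k hk x
      have : k ≠ 0 := by omega
      simpa [this] using hN (k - 1) (by omega) x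
  · rintro (z | y)
    · induction z using OnePoint.rec with
      | infty => exact ⟨∞, rfl⟩
      | coe p => exact ⟨((p.1 + 1, p.2) : ℕ × X), by simp⟩
    · obtain ⟨x, rfl⟩ := hF' y
      exact ⟨((0, x) : ℕ × X), by simp⟩

theorem surj_K_sum {m n : ℕ} (h : m < n) : Surj (K n) (K n ⊕ K m) := by
  obtain ⟨n, rfl⟩ : ∃ n', n = n' + 1 := ⟨n - 1, by omega⟩
  exact surj_sum_step (X := K n) (surj_K (by omega))

theorem surj_prod_step {X A B : Type*} [TopologicalSpace X] [CompactSpace X]
    [TopologicalSpace A] [CompactSpace A] [TopologicalSpace B] [CompactSpace B]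
    (h1 : Surj X (A × OnePoint (ℕ × B))) (h2 : Surj X (OnePoint (ℕ × A) × B)) :
    Surj (OnePoint (ℕ × X)) (OnePoint (ℕ × A) × OnePoint (ℕ × B)) := by
  obtain ⟨P, hP, hP'⟩ := h1
  obtain ⟨Q, hQ, hQ'⟩ := h2
  refine ⟨fun z => z.elim (∞, ∞) (fun p => if p.1 % 2 = 0 then
    (((p.1 / 2, (P p.2).1) : ℕ × A), shift (p.1 / 2) (P p.2).2) else
    (shift (p.1 / 2) (Q p.2).1, ((p.1 / 2, (Q p.2).2) : ℕ × B))), ?_, ?_⟩
  · rw [cont_iff]
    refine ⟨fun k => ?_, fun U hU => ?_⟩
    · by_cases hk : k % 2 = 0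
      · simp only [elim_some, hk, if_true]
        refine Continuous.prodMk ?_ ?_
        · exact continuous_coe.comp (by fun_prop)
        · exact (continuous_shift _).comp (by fun_prop)
      · simp only [elim_some, hk, if_false]
        refine Continuous.prodMk ?_ ?_
        · exact (continuous_shift _).comp (by fun_prop)
        · exact continuous_coe.comp (by fun_prop)
    · rw [elim_infty, mem_nhds_prod_iff] at hU
      obtain ⟨u, hu, v, hv, huv⟩ := hU
      obtain ⟨N1, hN1⟩ := eventually_atTop.1 (mem_nhds_inf.1 hu).2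
      obtain ⟨N2, hN2⟩ := eventually_atTop.1 (mem_nhds_inf.1 hv).2
      obtain ⟨N3, hN3⟩ := eventually_atTop.1 (shift_mem hu)
      obtain ⟨N4, hN4⟩ := eventually_atTop.1 (shift_mem hv)
      filter_upwards [eventually_ge_atTop (2 * (N1 + N2 + N3 + N4))] with k hk x
      have hk' : N1 + N2 + N3 + N4 ≤ k / 2 := by omega
      apply huv
      by_cases hk2 : k % 2 = 0
      · simp only [elim_some, hk2, if_true]
        exact ⟨hN1 _ (by omega) _, hN4 _ (by omega) _⟩
      · simp only [elim_some, hk2, if_false]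
        exact ⟨hN3 _ (by omega) _, hN2 _ (by omega) _⟩
  · have key1 : ∀ (n : ℕ) (a : A) (b : OnePoint (ℕ × B)), ∃ z : OnePoint (ℕ × X), 
        (fun z : OnePoint (ℕ × X) => z.elim ((∞, ∞) : OnePoint (ℕ × A) × OnePoint (ℕ × B)) (fun p => if p.1 % 2 = 0 then
    (((p.1 / 2, (P p.2).1) : ℕ × A), shift (p.1 / 2) (P p.2).2) else
    (shift (p.1 / 2) (Q p.2).1, ((p.1 / 2, (Q p.2).2) : ℕ × B)))) z =
        ((((n, a) : ℕ × A) : OnePoint (ℕ × A)), shift n b) := by
      intro n a b
      obtain ⟨x, hx⟩ := hP' (a, b)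
      exact ⟨((2 * n, x) : ℕ × X), by simp [hx]⟩
    have key2 : ∀ (n : ℕ) (a : OnePoint (ℕ × A)) (b : B), ∃ z : OnePoint (ℕ × X), 
        (fun z : OnePoint (ℕ × X) => z.elim ((∞, ∞) : OnePoint (ℕ × A) × OnePoint (ℕ × B)) (fun p => if p.1 % 2 = 0 then
    (((p.1 / 2, (P p.2).1) : ℕ × A), shift (p.1 / 2) (P p.2).2) else
    (shift (p.1 / 2) (Q p.2).1, ((p.1 / 2, (Q p.2).2) : ℕ × B)))) z =
        (shift n a, (((n, b) : ℕ × B) : OnePoint (ℕ × B))) := by
      intro n a b
      obtain ⟨x, hx⟩ := hQ' (a, b)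
      refine ⟨((2 * n + 1, x) : ℕ × X), ?_⟩
      have e1 : (2 * n + 1) % 2 ≠ 0 := by omega
      have e2 : (2 * n + 1) / 2 = n := by omega
      simp [hx, e2]
    rintro ⟨u, v⟩
    induction u using OnePoint.rec with
    | infty =>
      induction v using OnePoint.rec with
      | infty => exact ⟨∞, rfl⟩
      | coe q =>
        obtain ⟨z, hz⟩ := key2 q.1 ∞ q.2
        exact ⟨z, by rw [hz]; rfl⟩
    | coe p =>
      induction v using OnePoint.rec with
      | infty =>
        obtain ⟨z, hz⟩ := key1 p.1 p.2 ∞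
        exact ⟨z, by rw [hz]; rfl⟩
      | coe q =>
        rcases le_total p.1 q.1 with h | h
        · obtain ⟨z, hz⟩ := key1 p.1 p.2 (((q.1 - p.1, q.2) : ℕ × B) : OnePoint (ℕ × B))
          refine ⟨z, ?_⟩
          rw [hz, shift_coe, Nat.sub_add_cancel h]
        · obtain ⟨z, hz⟩ := key2 q.1 (((p.1 - q.1, p.2) : ℕ × A) : OnePoint (ℕ × A)) q.2
          refine ⟨z, ?_⟩
          rw [hz, shift_coe, Nat.sub_add_cancel h]

theorem surj_K_prod (a b : ℕ) : ∀ n, a + b ≤ n → Surj (K n) (K a × K b) := by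
  induction a generalizing b with
  | zero =>
    intro n hn
    obtain ⟨F, hF, hF'⟩ := surj_K (m := b) (n := n) (by omega)
    refine ⟨fun x => (root 0, F x), by fun_prop, ?_⟩
    rintro ⟨u, v⟩
    obtain ⟨x, rfl⟩ := hF' v
    exact ⟨x, rfl⟩
  | succ a ih =>
    induction b with
    | zero =>
      intro n hn
      obtain ⟨F, hF, hF'⟩ := surj_K (m := a + 1) (n := n) (by omega)
      refine ⟨fun x => (F x, root 0), by fun_prop, ?_⟩
      rintro ⟨u, v⟩
      obtain ⟨x, rfl⟩ := hF' u
      exact ⟨x, rfl⟩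
    | succ b ihb =>
      intro n hn
      obtain ⟨n, rfl⟩ : ∃ n', n = n' + 1 := ⟨n - 1, by omega⟩
      exact surj_prod_step (X := K n) (A := K a) (B := K b) (ih (b + 1) n (by omega))
        (ihb n (by omega))

/-- `K α` surjects onto `K α ⊔ (K m × K m)` when `2 m < α` -/
theorem surj_final {α m : ℕ} (h : 2 * m < α) : Surj (K α) (K α ⊕ (K m × K m)) := by
  obtain ⟨F, hF, hF'⟩ := surj_K_sum h
  obtain ⟨G, hG, hG'⟩ := surj_K_prod m m (2 * m) (by omega)
  exact Surj.trans ⟨F, hF, hF'⟩ ⟨Sum.map id G, continuous_id.sumMap hG,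
    (Function.surjective_id.sumMap hG')⟩

end Pool.Agent.Work.MP_6ed805_an
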